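import Pool.Agent.NG.Fin

/-!
# Identities, rational curves, chords and tangents never give an integral point of
`x^3 + y^3 + 2 z^3 = k` when `k` is odd or `k ≡ ±1 (mod 9)`

`NG.Constructible k x y z v` (file `Pool/Agent/NG/Defs.lean`) says that the point
`(x : y : z : v)` of the cubic surface `x^3 + y^3 + 2 z^3 = k v^3` over a field is obtained from
the points at infinity and from specialisations of parametric solutions
`f^3 + g^3 + 2 h^3 = c (a X + b)^n q^3` (`a ≠ 0`, `n` not a multiple of three, all polynomials over
the field, parameter `t` with `c (a t + b)^n = k`) by means of rational curves on the surface,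
chords, tangents and the symmetry `x ↔ y`.

The proof: the class of `x + w y` (`w` a primitive cube root of unity) in the units of
`ℚ_p(w)` modulo norms is the same for all constructible points; it is computed at infinity; for
`p = 2` and `k` odd, and for `p = 3` and `k ≡ ±1 (mod 9)`, integral points lie in another class.
-/

open NG

namespace Pool.Agent.Results.MP_1b7df1_nt.NoConstruction

/-- **No construction.**  If a constructible point of `x^3 + y^3 + 2 z^3 = k v^3` over `ℚ` is
integral (`x, y, z` integers, `v = 1`, `k` an integer), then `k` is even and `k` is not congruent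
to `1` or `-1` modulo nine.  The same holds for constructions over `ℚ_2` and `2`-adic integral
points, and for constructions over `ℚ_3` and `3`-adic integral points. -/
theorem result :
    (∀ k x y z : ℤ, Constructible (k : ℚ) (x : ℚ) (y : ℚ) (z : ℚ) 1 →
      Even k ∧ ¬ k ≡ 1 [ZMOD 9] ∧ ¬ k ≡ -1 [ZMOD 9]) ∧
    (∀ k x y z : ℤ_[2], Constructible (k : ℚ_[2]) (x : ℚ_[2]) (y : ℚ_[2]) (z : ℚ_[2]) 1 →
      2 ∣ k) ∧
    (∀ k x y z : ℤ_[3], Constructible (k : ℚ_[3]) (x : ℚ_[3]) (y : ℚ_[3]) (z : ℚ_[3]) 1 →
      ¬ (9 ∣ k - 1) ∧ ¬ (9 ∣ k + 1)) :=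
  ⟨no_construction, local_two, fun k x y z h =>
    ⟨fun h1 => local_three k x y z h (Or.inl h1), fun h1 => local_three k x y z h (Or.inr h1)⟩⟩

end Pool.Agent.Results.MP_1b7df1_nt.NoConstruction
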